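import Pool.Agent.Lib.lead.CXGraphRed

/-! Graph inputs given by a vertex list and a boolean relation. -/

namespace Pool.Agent.Lib.CX

variable {α W : Type}

/-- the graph input with vertices `vs` and the pairs satisfying `r` -/
def relGr [DecidableEq W] (vs : List W) (r : W × W → Bool) : Gr := mkGr vs ((vs ×ˢ vs).filter r)

/-- the name of a vertex -/
def relNm [DecidableEq W] (vs : List W) (r : W × W → Bool) (u : Fin (relGr vs r).n) : W := (mkGrEquiv vs _ u).1

theorem relNm_inj [DecidableEq W] (vs : List W) (r : W × W → Bool) : Function.Injective (relNm vs r) :=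
  fun _ _ e => (mkGrEquiv _ _).injective (Subtype.ext e)

theorem relNm_range [DecidableEq W] (vs : List W) (r : W × W → Bool) (p : W) : p ∈ vs ↔ ∃ u, relNm vs r u = p :=
  ⟨fun h => ⟨(mkGrEquiv _ _).symm ⟨p, h⟩, by simp [relNm]⟩, by rintro ⟨u, rfl⟩; exact (mkGrEquiv _ _ u).2⟩

theorem relGr_arc [DecidableEq W] (vs : List W) (r : W × W → Bool) (u v) :
    (relGr vs r).arc u v ↔ r (relNm vs r u, relNm vs r v) = true := by
  refine (mkGr_arc _ _ u v).trans ?_
  simp only [List.mem_filter, and_iff_right_iff_imp, relNm]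
  exact fun _ => List.pair_mem_product.2 ⟨(mkGrEquiv _ _ u).2, (mkGrEquiv _ _ v).2⟩

theorem relGr_adj [DecidableEq W] (vs : List W) (r : W × W → Bool) (u v) :
    (relGr vs r).G.Adj u v ↔ relNm vs r u ≠ relNm vs r v ∧
      (r (relNm vs r u, relNm vs r v) = true ∨ r (relNm vs r v, relNm vs r u) = true) :=
  and_congr (relNm_inj vs r).ne_iff.symm (or_congr (relGr_arc vs r u v) (relGr_arc vs r v u))

theorem relNm_getD {β : Type} [DecidableEq W] (vs : List W) (r : W × W → Bool) (c : W → β) (d : β)
    (u : Fin (relGr vs r).n) : (vs.dedup.map c).getD u d = c (relNm vs r u) := by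
  have : u.1 < vs.dedup.length := u.2.trans_eq (mkGr_n vs _)
  simp only [List.getD_eq_getElem?_getD, List.getElem?_map, List.getElem?_eq_getElem this]
  rfl

theorem PT.relGr [Enc α] [Enc W] [DecidableEq W] {vs : α → List W} {r : α → W × W → Bool} (h1 : PT vs)
    (h2 : PT fun p : α × (W × W) => r p.1 p.2) : PT fun a => relGr (vs a) (r a) := by
  unfold CX.relGr; fun_prop

end Pool.Agent.Lib.CX
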