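import Pool.Agent.Lib.helper25.CX2Defs
import Pool.Agent.Lib.lead.CXCook

/-! Quantified 3-SAT is complete for the second level; typed certificates. -/

namespace Pool.Agent.Lib.CX2

open Pool.Agent.Lib.CX Function

variable {α β γ δ V : Type}

theorem tab_fwd (p : Prog) (pat : List (Option Bool)) (U : List Unit) (v : ℕ × Cell → Bool)
    (h : ∀ C ∈ tab p (pat, U), C.ok v) :
    cval (step^[U.length] ([p], io (pat.mapIdx fun j o => o.getD (v (0, 1, 0, j))))).2 (1, 0, 1) = true := by
  simp only [tab, List.forall_mem_append, List.forall_mem_flatMap, List.forall_mem_cons, List.forall_mem_map,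
    List.not_mem_nil, IsEmpty.forall_iff, implies_true, and_true, Cl3.ok, unit, or_self, mem_cells, List.mem_range,
    Option.mem_toList] at h
  generalize U.length = T at *
  obtain ⟨⟨⟨h0, hT⟩, h1⟩, h2⟩ := h
  set w := pat.mapIdx fun j o => o.getD (v (0, 1, 0, j))
  have : ∀ t ≤ T, v (t, lab p (step^[t] ([p], io w)).1) = true ∧ ∀ x : Cell, x.1 < 4 → x.2.1 < nst p →
      x.2.2 + t < T + 2 → v (t, x) = cval (step^[t] ([p], io w)).2 x := fun t => by
    induction t with
    | zero =>
      refine fun _ => ⟨h0, fun x a b c => ?_⟩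
      rcases e : ini pat x with _ | c
      · obtain ⟨e1, e2⟩ := ini_none (fun j => v (0, 1, 0, j)) e
        exact (congrArg (fun y => v (0, y)) e1).trans e2.symm
      · exact (h1 x ⟨a, b, by omega⟩ c e).trans ((fits_fill pat _).ini e).symm
    | succ t ih =>
      intro ht
      obtain ⟨i1, i2⟩ := ih (by omega)
      have hl := run_label p (io w) t
      rw [iterate_succ_apply']
      generalize step^[t] ([p], io w) = c at *
      obtain ⟨κ, s⟩ := c
      obtain ⟨⟨a1, a2⟩, a3⟩ := h2 κ hl t (by omega)
      refine ⟨?_, fun x a b c => ?_⟩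
      · rw [step_fst, ← i2 _ (cnd_bound κ).1 (cnd_lt hl) (by rw [(cnd_bound κ).2]; omega)]
        cases h : v (t, cnd κ) <;> simp_all
      · obtain ⟨b1, b2, b3⟩ := src_bound κ x
        rw [step_snd, ← i2 _ (b1 a) (b2 ▸ b) (by omega)]
        have := a3 x ⟨a, b, by omega⟩
        cases h : v (t, src κ x) <;> simp_all
  rw [← (this T le_rfl).2 _ (by simp) (by simp [nst]) (by simp; omega), hT]

theorem tab_bwd (p : Prog) (pat : List (Option Bool)) (U : List Unit) (w : List Bool) (hw : Fits pat w)
    (hT : cval (step^[U.length] ([p], io w)).2 (1, 0, 1) = true) :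
    ∃ v : ℕ × Cell → Bool, (∀ j, v (0, 1, 0, j) = w.getD j false) ∧ ∀ C ∈ tab p (pat, U), C.ok v := by
  simp only [tab, List.forall_mem_append, List.forall_mem_flatMap, List.forall_mem_cons, List.forall_mem_map,
    List.not_mem_nil, IsEmpty.forall_iff, implies_true, and_true, Cl3.ok, unit, or_self, mem_cells, List.mem_range,
    Option.mem_toList]
  generalize U.length = T at *
  classical
  refine ⟨fun y => if y.2.1 = 4 then decide (y.2 = lab p (step^[y.1] ([p], io w)).1)
    else cval (step^[y.1] ([p], io w)).2 y.2, fun j => by simp [cval, io],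
    ⟨⟨by simp [lab], by simpa using hT⟩, fun x hx c e => ?_⟩, fun κ hκ t _ => ?_⟩
  · simpa [hx.1.ne] using hw.ini e
  · have l4 : ∀ κ, (lab p κ).1 = 4 := fun _ => rfl
    simp only [l4, if_true, (cnd_bound κ).1.ne, if_false, iterate_succ_apply', decide_eq_false_iff_not,
      decide_eq_true_eq]
    obtain ⟨⟨κ', s⟩, hc⟩ : ∃ c, step^[t] ([p], io w) = c := ⟨_, rfl⟩
    by_cases e : κ = κ'
    · subst e
      refine ⟨by rw [hc, step_fst]; cases cval s (cnd κ) <;> simp, fun x hx => ?_⟩
      simp [hx.1.ne, ((src_bound κ x).1 hx.1).ne, step_snd, hc, iterate_succ_apply', -iterate_succ]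
    · have : lab p κ ≠ lab p κ' := fun h => e (lab_inj hκ h)
      simp [this, hc]

theorem enc_getD (y r : List Bool) (i : ℕ) (h : i < y.length) :
    (enc y ++ r).getD (3 * i + 2) false = y.getD i false := by
  rw [enc_bits]
  induction y generalizing i with
  | nil => simp at h
  | cons b y ih =>
    rcases i with _ | i
    · simp
    · have := ih i (by simpa using h)
      simpa [Nat.mul_succ] using this

theorem pat_none (m : ℕ) (r : List (Option Bool)) (i : ℕ) (h : i < m) :
    (certPat [] m ++ r)[3 * i + 2]? = some none := by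
  unfold certPat
  induction m generalizing i with
  | zero => simp at h
  | succ m ih =>
    rcases i with _ | i
    · simp [List.replicate_succ]
    · have := ih i (by omega)
      simpa [Nat.mul_succ, List.replicate_succ] using this

theorem fits_two (u : List Bool) (m : ℕ) (w) : Fits (certPat u m ++ certPat [] m) w ↔
    ∃ y z : List Bool, y.length = m ∧ z.length = m ∧ w = u ++ (enc y ++ enc z) := by
  constructor
  · intro h
    have h1 := (List.forall₂_take_append _ _ _ h.flip).flip
    have h2 := (List.forall₂_drop_append _ _ _ h.flip).flip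
    obtain ⟨y, hy, e1⟩ := (fits_certPat _ _ _).1 h1
    obtain ⟨z, hz, e2⟩ := (fits_certPat _ _ _).1 h2
    refine ⟨y, z, hy, hz, ?_⟩
    rw [← List.take_append_drop (certPat u m).length w, e1, e2]; simp
  · rintro ⟨y, z, hy, hz, rfl⟩
    rw [← List.append_assoc]
    exact List.rel_append ((fits_certPat _ _ _).2 ⟨y, hy, rfl⟩) ((fits_certPat _ _ _).2 ⟨z, hz, rfl⟩)

/-- for all values of the variables in the list there are values of the others satisfying the formula -/
def QP (a : List V × List (Cl3 V)) : Prop :=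
  ∀ x : V → Bool, ∃ v : V → Bool, (∀ i ∈ a.1, v i = x i) ∧ ∀ C ∈ a.2, C.ok v

theorem cook2 [Enc α] {A : α → Prop} (h : InPi2 A) : Red A (QP (V := ℕ × Cell)) := by
  obtain ⟨q, W, ⟨p, r, hV⟩, h⟩ := h
  refine ⟨fun a => ((List.range (q.eval (size a))).map fun i => (0, 1, 0, size a + 2 + (3 * i + 2)),
    tab p (certPat (true :: enc a ++ [true]) (q.eval (size a)) ++ certPat [] (q.eval (size a)),
    List.replicate (r.eval (size a + (3 * q.eval (size a) + 2 + (3 * q.eval (size a) + 2) + 1) + 1)) ())),
    PT.pair (by fun_prop) ((PT.tab p).comp (by unfold certPat; fun_prop)), fun a => ?_⟩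
  have key : ∀ y z : List Bool, y.length = q.eval (size a) → z.length = q.eval (size a) →
      cval (step^[r.eval (size a + (3 * q.eval (size a) + 2 + (3 * q.eval (size a) + 2) + 1) + 1)]
        ([p], io ((true :: enc a ++ [true]) ++ (enc y ++ enc z)))).2 (1, 0, 1) = W (a, y, z) := fun y z hy hz => by
    obtain ⟨n, m, hn, e⟩ := hV (a, y, z)
    rw [size_pair, size_pair, size_bits y, size_bits z, hy, hz] at hn
    have e2 : enc (a, y, z) = (true :: enc a ++ [true]) ++ (enc y ++ enc z) := by
      simp [enc, Enc.tr, Tr.code]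
    rw [← e2]
    exact (congrArg (fun c => cval c.2 (1, 0, 1)) (e.run_le hn)).trans rfl
  have pos : ∀ (y r : List Bool) i, i < y.length →
      ((true :: enc a ++ [true]) ++ (enc y ++ r)).getD (size a + 2 + (3 * i + 2)) false = y.getD i false :=
    fun y r i hi => by
      rw [← enc_getD y r i hi, List.getD_append_right _ _ _ _ (by simp [size])]
      congr 1; simp [size]
  rw [h]
  simp only [QP, List.forall_mem_map, List.mem_range]
  constructor
  · intro H x
    obtain ⟨z, hz, e⟩ := H ((List.range (q.eval (size a))).map fun i => x (0, 1, 0, size a + 2 + (3 * i + 2))) (by simp)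
    obtain ⟨v, h1, h2⟩ := tab_bwd p _ (List.replicate _ ()) _ ((fits_two _ _ _).2
      ⟨(List.range (q.eval (size a))).map fun i => x (0, 1, 0, size a + 2 + (3 * i + 2)), _, by simp, hz, rfl⟩)
      (by rw [List.length_replicate]; exact (key _ _ (by simp) hz).trans e)
    refine ⟨v, fun i hi => ?_, h2⟩
    rw [h1, pos _ _ _ (by simpa using hi)]
    simp [hi]
  · intro H y hy
    obtain ⟨v, h1, h2⟩ := H fun x => y.getD ((x.2.2.2 - (size a + 4)) / 3) false
    have h3 := tab_fwd _ _ _ _ h2
    obtain ⟨y', z, hy', hz, e⟩ := (fits_two _ _ _).1 (fits_fill (certPat (true :: enc a ++ [true]) (q.eval (size a)) ++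
      certPat [] (q.eval (size a))) fun j => v (0, 1, 0, j))
    refine ⟨z, hz, ?_⟩
    rw [e, List.length_replicate, key _ _ hy' hz] at h3
    have : y' = y := List.ext_getElem (by rw [hy, hy']) fun i i1 i2 => by
      have a1 := pos y' (enc z) i i1
      rw [← e] at a1
      have a2 := pat_none (q.eval (size a)) (certPat [] (q.eval (size a))) i (hy' ▸ i1)
      have a3 : (certPat (true :: enc a ++ [true]) (q.eval (size a)) ++
          certPat [] (q.eval (size a)))[size a + 2 + (3 * i + 2)]? = some none := by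
        rw [← a2, certPat, List.append_assoc, List.getElem?_append_right (by simp [size])]
        congr 1 <;> simp [size, certPat]
      rw [List.getD_eq_getElem?_getD, List.getElem?_mapIdx, a3] at a1
      have a4 := h1 i (hy' ▸ i1)
      have a5 : (size a + 2 + (3 * i + 2) - (size a + 4)) / 3 = i := by omega
      simp only [a5] at a4
      simpa [a4, i1, i2] using a1.symm
    rwa [this] at h3

/-- rename the variables to numbers, the universal ones first -/
def renum2 [DecidableEq V] (a : List V × List (Cl3 V)) : List Unit × List (Cl3 ℕ) :=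
  (a.1.map fun _ => (), a.2.map (Cl3.map fun x => (a.1 ++ a.2.flatMap Cl3.vars).idxOf x))

/-- for all values of the variables below `n` there are values of the others satisfying the formula -/
def Q3 (n : ℕ) (φ : List (Cl3 ℕ)) : Prop :=
  ∀ x : ℕ → Bool, ∃ v : ℕ → Bool, (∀ i < n, v i = x i) ∧ ∀ C ∈ φ, C.ok v

theorem q3_renum [DecidableEq V] [Inhabited V] (a : List V × List (Cl3 V)) :
    QP a ↔ Q3 (renum2 a).1.length (renum2 a).2 := by
  obtain ⟨X, φ⟩ := a
  simp only [QP, Q3, renum2, List.length_map, List.forall_mem_map]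
  set L := X ++ φ.flatMap Cl3.vars with hL
  have g : ∀ y ∈ L, L.getD (L.idxOf y) default = y := fun y hy => by
    simp [List.getD_eq_getElem?_getD, List.getElem?_idxOf hy]
  have l : ∀ y, L.idxOf y < X.length ↔ y ∈ X := fun y => by
    by_cases h : y ∈ X
    · simp [hL, List.idxOf_append_of_mem h, h, List.idxOf_lt_length_of_mem h]
    · simp [hL, List.idxOf_append_of_notMem h, h]
  constructor
  · intro H x
    obtain ⟨v, h1, h2⟩ := H fun y => x (L.idxOf y)
    refine ⟨fun i => if i < X.length then x i else v (L.getD i default), fun i hi => by simp [hi], fun C hC => ?_⟩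
    have : ∀ y ∈ C.vars, (if L.idxOf y < X.length then x (L.idxOf y) else v (L.getD (L.idxOf y) default)) = v y :=
      fun y hy => by
        split
        · exact (h1 y ((l y).1 ‹_›)).symm
        · rw [g y (List.mem_append_right _ (List.mem_flatMap.2 ⟨C, hC, hy⟩))]
    simp only [Cl3.vars, List.forall_mem_cons] at this
    simpa only [Cl3.ok, Cl3.map, this] using h2 C hC
  · intro H x
    obtain ⟨v, h1, h2⟩ := H fun i => x (L.getD i default)
    exact ⟨fun y => v (L.idxOf y), fun y hy =>
      (h1 _ ((l y).2 hy)).trans (by rw [g y (List.mem_append_left _ hy)]), h2⟩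

theorem renum2_lt [DecidableEq V] (a : List V × List (Cl3 V)) :
    ∀ C ∈ (renum2 a).2, ∀ x ∈ C.vars, x < (renum2 a).1.length + 3 * (renum2 a).2.length := by
  obtain ⟨X, φ⟩ := a
  have l : (φ.flatMap Cl3.vars).length = 3 * φ.length := by
    induction φ with
    | nil => rfl
    | cons C φ ih => simp only [List.flatMap_cons, List.length_append, ih]; simp [Cl3.vars]; omega
  refine List.forall_mem_map.2 fun C hC => ?_
  have := fun x hx => List.idxOf_lt_length_of_mem
    (List.mem_append_right X (List.mem_flatMap.2 ⟨C, hC, hx⟩) : x ∈ X ++ φ.flatMap Cl3.vars)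
  simp only [Cl3.vars, List.forall_mem_cons, List.length_append, l] at this
  simpa [Cl3.vars, Cl3.map, renum2, this] using this

/-- hardness for the second universal level by a reduction from forall-exists 3-SAT: the variables below
`n.length` are universal, and all variables are below `n.length + 3 * φ.length` -/
theorem Pi2Hard.of_q3 [Enc β] {B : β → Prop} (f : List Unit × List (Cl3 ℕ) → β) (hf : PT f)
    (h : ∀ n φ, (∀ C ∈ φ, ∀ x ∈ C.vars, x < n.length + 3 * φ.length) → (Q3 n.length φ ↔ B (f (n, φ)))) :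
    Pi2Hard B := fun _ hA =>
  (cook2 hA).trans ⟨fun a => f (renum2 a), hf.comp (by unfold renum2 Cl3.map Cl3.vars; fun_prop),
    fun a => (q3_renum a).trans (h _ _ (renum2_lt a))⟩

variable [Enc α] [Enc β] [Enc γ] [Enc δ]

theorem InSig2.not {A : α → Prop} (h : InSig2 A) : InPi2 fun a => ¬A a := by
  obtain ⟨q, W, hW, h⟩ := h
  exact ⟨q, fun p => !W p, hW.not, fun a => by simp [h]⟩

theorem InPi2.not {A : α → Prop} (h : InPi2 A) : InSig2 fun a => ¬A a := by
  obtain ⟨q, W, hW, h⟩ := h
  exact ⟨q, fun p => !W p, hW.not, fun a => by simp [h]⟩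

theorem Pi2Hard.not {B : β → Prop} (h : Pi2Hard B) : Sig2Hard fun b => ¬B b := fun _ hA =>
  let ⟨f, hf, e⟩ := h _ hA.not; ⟨f, hf, fun a => not_not.symm.trans (e a).not⟩

theorem Sig2Hard.not {B : β → Prop} (h : Sig2Hard B) : Pi2Hard fun b => ¬B b := fun _ hA =>
  let ⟨f, hf, e⟩ := h _ hA.not; ⟨f, hf, fun a => not_not.symm.trans (e a).not⟩

theorem Pi2Hard.red {A : α → Prop} {B : β → Prop} (h : Pi2Hard A) (h' : Red A B) : Pi2Hard B :=
  fun L hL => (h L hL).trans h'

theorem Sig2Hard.red {A : α → Prop} {B : β → Prop} (h : Sig2Hard A) (h' : Red A B) : Sig2Hard B :=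
  fun L hL => (h L hL).trans h'

/-- hardness for the second existential level by a reduction from the complement of forall-exists 3-SAT -/
theorem Sig2Hard.of_q3 {B : β → Prop} (f : List Unit × List (Cl3 ℕ) → β) (hf : PT f)
    (h : ∀ n φ, (∀ C ∈ φ, ∀ x ∈ C.vars, x < n.length + 3 * φ.length) → (¬Q3 n.length φ ↔ B (f (n, φ)))) :
    Sig2Hard B := by
  have := (Pi2Hard.of_q3 (B := fun b => ¬B b) f hf fun n φ H => by rw [← h n φ H, not_not]).not
  simpa only [not_not] using this

theorem pad [Dec γ] (c : γ) (k : ℕ) (h : size c ≤ k) : ∃ y : List Bool, y.length = 2 * k ∧ Dec.dec (parse y) = c := by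
  have h1 := post_length (Enc.tr c)
  have h2 : size (Enc.tr c) = size c := rfl
  refine ⟨(Enc.tr c).post ++ List.replicate (2 * k - (Enc.tr c).post.length) false, by simp; omega, ?_⟩
  simp only [parse, List.foldl_append, parse_post, parse_pad, List.headD_cons, Dec.dec_tr]

/-- membership in the second existential level from typed certificates of polynomial size -/
theorem InSig2.of_cert [Dec γ] [Dec δ] {A : α → Prop} (W : α → γ → δ → Prop) {i : ∀ a c d, Decidable (W a c d)}
    (B : α → ℕ) (hW : PT fun p : α × γ × δ => @decide (W p.1 p.2.1 p.2.2) (i p.1 p.2.1 p.2.2)) (hB : PB B)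
    (sound : ∀ a c, (∀ d, size d ≤ B a → W a c d) → A a)
    (complete : ∀ a, A a → ∃ c, size c ≤ B a ∧ ∀ d, W a c d) : InSig2 A := by
  obtain ⟨q, hq⟩ := hB
  refine ⟨2 * q, fun p => @decide (W p.1 (Dec.dec (parse p.2.1)) (Dec.dec (parse p.2.2))) (i _ _ _),
    hW.comp (g := fun p : α × List Bool × List Bool => (p.1, Dec.dec (parse p.2.1), Dec.dec (parse p.2.2)))
      (PT.fst'.pair ((Dec.pt.comp (PT.parse.comp PT.snd'.fst)).pair (Dec.pt.comp (PT.parse.comp PT.snd'.snd)))),
    fun a => ⟨fun h => ?_, fun ⟨y, _, h⟩ => sound _ (Dec.dec (parse y)) fun d hd => ?_⟩⟩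
  · obtain ⟨c, hc, h⟩ := complete a h
    obtain ⟨y, h1, h2⟩ := pad c _ (hc.trans (hq a))
    exact ⟨y, by simpa using h1, fun z _ => by simpa [h2] using h _⟩
  · obtain ⟨z, h1, h2⟩ := pad d _ (hd.trans (hq a))
    simpa [h2] using h z (by simpa using h1)

/-- membership in the second universal level from typed certificates of polynomial size -/
theorem InPi2.of_cert [Dec γ] [Dec δ] {A : α → Prop} (W : α → γ → δ → Prop) {i : ∀ a c d, Decidable (W a c d)}
    (B : α → ℕ) (hW : PT fun p : α × γ × δ => @decide (W p.1 p.2.1 p.2.2) (i p.1 p.2.1 p.2.2)) (hB : PB B)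
    (sound : ∀ a, (∀ c, size c ≤ B a → ∃ d, W a c d) → A a)
    (complete : ∀ a, A a → ∀ c, ∃ d, size d ≤ B a ∧ W a c d) : InPi2 A := by
  classical
  have := (InSig2.of_cert (A := fun a => ¬A a) (fun a c d => ¬W a c d) (i := fun _ _ _ => inferInstance) B
    hW.decide_not hB (fun a c H h => let ⟨d, h1, h2⟩ := complete a h c; H d h1 h2)
    fun a h => by by_contra! H; exact h (sound a H)).not
  simpa only [not_not] using this

end Pool.Agent.Lib.CX2
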