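import Pool.Agent.Lib.helper25.Cfg
import Pool.Agent.Lib.helper21.CFG
import Pool.Agent.Lib.lead.CXBase

/-! Membership in the language of a context-free grammar is polynomial. -/

namespace Pool.Agent.Lib.CX

open Pool.Agent.Lib.helper21.CFG

theorem iter_closed {β : Type} {W : List β} {F : List β → List β} (h1 : ∀ D, F D ⊆ W)
    (h2 : ∀ D E, D ⊆ E → F D ⊆ F E) : F (F^[W.length + 1] []) ⊆ F^[W.length + 1] [] := by
  classical
  have m : ∀ k, F^[k] [] ⊆ F^[k + 1] [] := fun k => by
    induction k with
    | zero => simp
    | succ k ih => simpa only [Function.iterate_succ_apply'] using h2 _ _ ih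
  have : ∀ k, k ≤ (F^[k] []).toFinset.card ∨ F^[k + 1] [] ⊆ F^[k] [] := fun k => by
    induction k with
    | zero => simp
    | succ k ih =>
      by_cases q : F^[k + 1] [] ⊆ F^[k] []
      · exact .inr (by simpa only [Function.iterate_succ_apply'] using h2 _ _ q)
      · refine .inl ((ih.resolve_right q).trans_lt (Finset.card_lt_card ⟨fun x => ?_, fun h => q fun x hx => ?_⟩))
        · simpa only [List.mem_toFinset] using @m k x
        · simpa only [List.mem_toFinset] using h (List.mem_toFinset.2 hx)
  rw [← Function.iterate_succ_apply' F]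
  refine (this _).resolve_left fun h => ?_
  have : (F^[W.length + 1] []).toFinset ⊆ W.toFinset := fun x => by
    simpa only [List.mem_toFinset, Function.iterate_succ_apply'] using @h1 _ x
  have := (Finset.card_le_card this).trans W.toFinset_card_le
  omega

namespace Cfg

variable {T : Type} [DecidableEq T]

def ok (D : List (ℕ × List T)) (s : Option T × ℕ) (v : List T) : Prop :=
  s.1 ≠ none ∧ s.1.toList = v ∨ s.1 = none ∧ (s.2, v) ∈ D
instance (D : List (ℕ × List T)) (s v) : Decidable (ok D s v) := by unfold ok; infer_instance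

def mt (D : List (ℕ × List T)) (U : List (List T)) : List (Option T × ℕ) → List (List T)
  | [] => U.filter (· = [])
  | s :: l => U.filter fun t => (List.range (t.length + 1)).any fun j => ok D s (t.take j) ∧ t.drop j ∈ mt D U l

def inf (w : List T) : List (List T) :=
  (List.range (w.length + 1) ×ˢ List.range (w.length + 1)).map fun p => (w.drop p.1).take p.2

def all (g : Cfg T) (w : List T) : List (ℕ × List T) := g.map (·.1) ×ˢ inf w

def step (g : Cfg T) (w : List T) (D : List (ℕ × List T)) : List (ℕ × List T) :=
  (all g w).filter fun p => ∃ r ∈ g, r.1 = p.1 ∧ p.2 ∈ mt D (inf w) r.2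

def mem (g : Cfg T) (w : List T) : Bool := (0, w) ∈ (step g w)^[(all g w).length + 1] []

omit [DecidableEq T] in
theorem mem_inf {w t : List T} : t ∈ inf w ↔ t <:+: w := by
  simp only [inf, List.mem_map, Prod.exists, List.pair_mem_product, List.mem_range]
  constructor
  · rintro ⟨i, j, -, rfl⟩
    exact (List.take_prefix _ _).isInfix.trans (List.drop_suffix _ _).isInfix
  · rintro ⟨p, s, rfl⟩
    exact ⟨p.length, t.length, by simp; omega, by simp⟩

theorem mt_mono {D E : List (ℕ × List T)} (h : D ⊆ E) (U l) : mt D U l ⊆ mt E U l := by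
  induction l with
  | nil => simp [mt]
  | cons s l ih =>
    intro t
    simp only [mt, List.mem_filter, List.any_eq_true, decide_eq_true_eq]
    exact And.imp_right fun ⟨j, a, b, c⟩ => ⟨j, a, b.imp_right (.imp_right (@h _)), ih c⟩

theorem mt_sound {R} {D : List (ℕ × List T)} (h : ∀ p ∈ D, Gen R [.nonterminal p.1] p.2) (U l) :
    ∀ t ∈ mt D U l, Gen R (l.map sym) t := by
  induction l with
  | nil => simp +contextual [mt, Gen.nil]
  | cons s l ih =>
    simp only [mt, List.mem_filter, List.any_eq_true, decide_eq_true_eq]
    rintro t ⟨-, j, -, a, b⟩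
    rw [← t.take_append_drop j]
    refine Gen.append (l := [sym s]) ?_ (ih _ b)
    obtain ⟨_ | x, n⟩ := s
    · exact h (n, _) (by simpa [ok] using a)
    · rw [show t.take j = [x] by simpa [ok, eq_comm] using a]; exact .ter x .nil

theorem mt_complete {D : List (ℕ × List T)} {w : List T} (l) :
    ∀ t, t <:+: w → Sem (fun X v => v <:+: w → (X, v) ∈ D) (l.map sym) t → t ∈ mt D (inf w) l := by
  induction l with
  | nil => simp +contextual [mt, sem_nil, mem_inf]
  | cons s l ih =>
    intro t h a
    simp only [mt, List.mem_filter, List.any_eq_true, decide_eq_true_eq, mem_inf, h, true_and]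
    obtain ⟨_ | x, n⟩ := s
    · obtain ⟨u, v, b, c, rfl⟩ := sem_nt.1 a
      exact ⟨u.length, by simp, by simpa [ok] using b ((List.prefix_append _ _).isInfix.trans h),
        by simpa using ih v ((List.suffix_append _ _).isInfix.trans h) c⟩
    · obtain ⟨v, c, rfl⟩ := sem_ter.1 a
      exact ⟨1, by simp, by simp [ok], ih v ((List.suffix_cons _ _).isInfix.trans h) c⟩

omit [DecidableEq T] in
theorem lang (g : Cfg T) (w : List T) : w ∈ g.toCFG.language ↔
    Gen {r | ∃ q ∈ g, ⟨q.1, q.2.map sym⟩ = r} [.nonterminal 0] w := by
  rw [mem_language_iff_gen]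
  refine iff_of_eq (congrArg (fun R : Set (ContextFreeRule T ℕ) => Gen R [.nonterminal 0] w) (Set.ext fun r => ?_))
  unfold toCFG
  simp only [List.coe_toFinset, List.mem_map, Set.mem_setOf_eq]

theorem mem_iff (g : Cfg T) (w : List T) : mem g w = true ↔ w ∈ g.toCFG.language := by
  rw [lang, mem, decide_eq_true_eq]
  constructor
  · have : ∀ k, ∀ p ∈ (step g w)^[k] [], Gen {r | ∃ q ∈ g, ⟨q.1, q.2.map sym⟩ = r} [.nonterminal p.1] p.2 := fun k => by
      induction k with
      | zero => simp
      | succ k ih =>
        simp only [Function.iterate_succ_apply', step, List.mem_filter, decide_eq_true_eq]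
        rintro p ⟨-, r, a, b, c⟩
        exact b ▸ Gen.one ⟨r, a, rfl⟩ (mt_sound ih _ _ _ c)
    exact this _ _
  · have c := iter_closed (W := all g w) (F := step g w) (fun D => List.filter_subset_self _) fun D E h p => by
      simp only [step, List.mem_filter, decide_eq_true_eq]
      exact And.imp_right fun ⟨r, a, b, c⟩ => ⟨r, a, b, mt_mono h _ _ c⟩
    intro h
    obtain ⟨u, v, a, b, rfl⟩ := sem_nt.1 (h.sound (I := fun X v => v <:+: w → (X, v) ∈
      (step g w)^[(all g w).length + 1] []) fun r hr t a b => c (by
        obtain ⟨q, d, rfl⟩ := hr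
        simp only [step, List.mem_filter, decide_eq_true_eq]
        exact ⟨List.pair_mem_product.2 ⟨List.mem_map_of_mem d, mem_inf.2 b⟩, q, d, rfl, mt_complete _ t b a⟩))
    obtain rfl := sem_nil.1 b
    simpa using a (by simp)

variable [Enc T]

set_option synthInstance.maxSize 2000 in
theorem pt_mt : PT fun p : (List (ℕ × List T) × List (List T)) × List (Option T × ℕ) => mt p.1.1 p.1.2 p.2 :=
  PT.listRec (f := fun a : List (ℕ × List T) × List (List T) => mt a.1 a.2) (B := size)
    (F := fun a s _ r => a.2.filter fun t => (List.range (t.length + 1)).any fun j => ok a.1 s (t.take j) ∧ t.drop j ∈ r)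
    (by unfold mt; fun_prop) (by unfold ok; fun_prop) (fun _ _ _ => rfl) PB.size' fun a l => by
      have : size (mt a.1 a.2 l) ≤ size a.2 := size_sublist (by cases l <;> exact List.filter_sublist)
      have : size a = _ := size_pair a.1 a.2
      simp; omega

set_option synthInstance.maxSize 2000 in
theorem pt_mem : PT fun p : Cfg T × List T => mem p.1 p.2 := by
  have a0 : PT fun p : Cfg T × List T => inf p.2 := by unfold inf; fun_prop
  have a1 : PT fun p : Cfg T × List T => all p.1 p.2 := PT.product (by fun_prop) a0
  have a2 : PT fun p : (Cfg T × List T) × List (ℕ × List T) => step p.1.1 p.1.2 p.2 :=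
    PT.filter (.decide_exists (i := fun _ _ => inferInstance) (.decide_and (by fun_prop) (.decide_mem (by fun_prop)
      (pt_mt.comp (g := fun q : (((Cfg T × List T) × List (ℕ × List T)) × ℕ × List T) × ℕ × List (Option T × ℕ) =>
        ((q.1.1.2, inf q.1.1.1.2), q.2.2)) (((PT.snd (by fun_prop)).pair (a0.comp (by fun_prop))).pair (by fun_prop)))))
      (by fun_prop)) (a1.comp PT.fst')
  refine .decide_mem (by fun_prop) (PT.iterate (F := fun p : Cfg T × List T => step p.1 p.2)
    (B := fun p => size (all p.1 p.2)) a2 (by fun_prop) (by fun_prop) (by fun_prop) (by fun_prop) fun a k _ => ?_)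
  cases k with
  | zero => exact size_sublist (List.nil_sublist _)
  | succ k => rw [Function.iterate_succ_apply']; exact size_sublist List.filter_sublist

end Cfg

end Pool.Agent.Lib.CX
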