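import Pool.Agent.Lib.helper25.CX2

/-! Collapse of the second level under NP = coNP. -/

namespace Pool.Agent.Lib.CX2

open Pool.Agent.Lib.CX

variable {α β : Type} [Enc α] [Enc β]

theorem InSig2.red {A : α → Prop} {B : β → Prop} (h : InSig2 B) (h' : Red A B) : InSig2 A := by
  obtain ⟨f, hf, e⟩ := h'
  obtain ⟨q, V, hV, h⟩ := h
  refine InSig2.of_cert (γ := List Bool) (δ := List Bool)
    (fun a y z => y.length = q.eval (size (f a)) ∧ (z.length = q.eval (size (f a)) → V (f a, y, z) = true))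
    (i := fun _ _ _ => inferInstance) (fun a => 3 * q.eval (size (f a)) + 2) (by fun_prop) (by fun_prop)
    (fun a y hy => ?_) fun a ha => ?_
  · exact (e a).2 ((h _).2 ⟨y, (hy [] (by simp)).1, fun z hz => (hy z (by rw [size_bits, hz])).2 hz⟩)
  · obtain ⟨y, h1, h2⟩ := (h _).1 ((e a).1 ha)
    exact ⟨y, by rw [size_bits, h1], fun z => ⟨h1, h2 z⟩⟩

theorem InPi2.red {A : α → Prop} {B : β → Prop} (h : InPi2 B) (h' : Red A B) : InPi2 A := by
  obtain ⟨f, hf, e⟩ := h'
  simpa only [not_not] using (h.not.red (A := fun a => ¬A a) ⟨f, hf, fun a => (e a).not⟩).not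

theorem pi2_of_np {A : α → Prop} (h : InNP A) : InPi2 A := by
  obtain ⟨q, V, hV, h⟩ := h
  refine ⟨q, fun p => V (p.1, p.2.2), by fun_prop, fun a => (h a).trans ⟨fun H _ _ => H, fun H => ?_⟩⟩
  exact H (List.replicate _ false) List.length_replicate

theorem sig2_of_conp {A : α → Prop} (h : InNP A) : InSig2 fun a => ¬A a := (pi2_of_np h).not

theorem conp_typed [Dec α] (H : ∀ A : List Bool → Prop, InNP A → InNP fun w => ¬A w) {A : α → Prop} (h : InNP A) :
    InNP fun a => ¬A a := by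
  obtain ⟨q, V, hV, h⟩ := h
  have : InNP fun w : List Bool => ∃ a, enc a = w ∧ A a := by
    refine InNP.of_cert' (γ := α × List Bool)
      (fun w c => enc c.1 = w ∧ c.2.length = q.eval (size c.1) ∧ V (c.1, c.2) = true)
      (i := fun _ _ => inferInstance) (fun w => w.length + (3 * q.eval w.length + 2) + 1) (by fun_prop) (by fun_prop)
      (fun w c hc => ⟨c.1, hc.1, (h _).2 ⟨c.2, hc.2⟩⟩) ?_
    rintro _ ⟨a, rfl, ha⟩
    obtain ⟨y, h1, h2⟩ := (h a).1 ha
    exact ⟨(a, y), by rw [size_pair, size_bits, h1]; rfl, rfl, h1, h2⟩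
  refine (H _ this).red ⟨enc, PT.id.enc, fun a => not_congr ⟨fun h => ⟨a, rfl, h⟩, ?_⟩⟩
  rintro ⟨b, e, hb⟩
  exact enc_inj e ▸ hb

theorem InSig2.np [Dec α] (H : ∀ A : List Bool → Prop, InNP A → InNP fun w => ¬A w) {A : α → Prop}
    (h : InSig2 A) : InNP A := by
  obtain ⟨q, V, hV, h⟩ := h
  have : InNP fun p : α × List Bool => ∃ z : List Bool, z.length = q.eval (size p.1) ∧ V (p.1, p.2, z) = false :=
    InNP.of_cert' (γ := List Bool) (fun p z => z.length = q.eval (size p.1) ∧ V (p.1, p.2, z) = false)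
      (i := fun _ _ => inferInstance) (fun p => 3 * q.eval (size p.1) + 2) (by fun_prop) (by fun_prop)
      (fun _ z hz => ⟨z, hz⟩) fun _ ⟨z, hz⟩ => ⟨z, by rw [size_bits, hz.1], hz⟩
  obtain ⟨r, U, hU, h2⟩ := conp_typed H this
  refine InNP.of_cert' (γ := List Bool × List Bool)
    (fun a c => c.1.length = q.eval (size a) ∧ c.2.length = r.eval (size (a, c.1)) ∧ U ((a, c.1), c.2) = true)
    (i := fun _ _ => inferInstance)
    (fun a => 3 * q.eval (size a) + 2 + (3 * r.eval (size a + (3 * q.eval (size a) + 2) + 1) + 2) + 1)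
    (by fun_prop) (by have := PB.size' (α := α); fun_prop) (fun a c hc => (h a).2 ⟨c.1, hc.1, fun z hz => ?_⟩)
    fun a ha => ?_
  · have := (h2 (a, c.1)).2 ⟨c.2, hc.2⟩
    by_contra e
    exact this ⟨z, hz, by simpa using e⟩
  · obtain ⟨y, h1, h3⟩ := (h a).1 ha
    obtain ⟨u, h4, h5⟩ := (h2 (a, y)).1 fun ⟨z, hz, e⟩ => by simp [h3 z hz] at e
    exact ⟨(y, u), by rw [size_pair, size_bits, size_bits, h4, size_pair, size_bits, h1], h1, h4, h5⟩

end Pool.Agent.Lib.CX2
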