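import Pool.Agent.Lib.lead.CXDefs

/-! The second level of the polynomial hierarchy over the machine model of the CX library. -/

namespace Pool.Agent.Lib.CX2

open Pool.Agent.Lib.CX

variable {α β : Type} [Enc α] [Enc β]

/-- the decision problem `A` is in the second existential level of the polynomial hierarchy -/
def InSig2 (A : α → Prop) : Prop :=
  ∃ (q : Polynomial ℕ) (V : α × List Bool × List Bool → Bool), PT V ∧
    ∀ a, A a ↔ ∃ y : List Bool, y.length = q.eval (size a) ∧
      ∀ z : List Bool, z.length = q.eval (size a) → V (a, y, z) = true

/-- the decision problem `A` is in the second universal level of the polynomial hierarchy -/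
def InPi2 (A : α → Prop) : Prop :=
  ∃ (q : Polynomial ℕ) (V : α × List Bool × List Bool → Bool), PT V ∧
    ∀ a, A a ↔ ∀ y : List Bool, y.length = q.eval (size a) →
      ∃ z : List Bool, z.length = q.eval (size a) ∧ V (a, y, z) = true

/-- every language of bit strings in the second existential level reduces to `B` -/
def Sig2Hard (B : β → Prop) : Prop := ∀ A : List Bool → Prop, InSig2 A → Red A B

/-- every language of bit strings in the second universal level reduces to `B` -/
def Pi2Hard (B : β → Prop) : Prop := ∀ A : List Bool → Prop, InPi2 A → Red A B

def Sig2Complete (B : β → Prop) : Prop := InSig2 B ∧ Sig2Hard B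

def Pi2Complete (B : β → Prop) : Prop := InPi2 B ∧ Pi2Hard B

end Pool.Agent.Lib.CX2
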