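import Pool.Agent.Lib.lead.CXDefs

/-! Context-free grammars as data. -/

namespace Pool.Agent.Lib.CX

/-- a grammar given as a list of rules; nonterminals are numbers -/
abbrev Cfg (T : Type) := List (ℕ × List (Option T × ℕ))

/-- `(some a, _)` is the terminal `a` and `(none, n)` is the nonterminal `n` -/
def Cfg.sym {T : Type} : Option T × ℕ → Symbol T ℕ
  | (some a, _) => .terminal a
  | (none, n) => .nonterminal n

open Classical in
/-- the grammar with the listed rules and start symbol `0` -/
noncomputable def Cfg.toCFG {T : Type} (g : Cfg T) : ContextFreeGrammar T :=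
  ⟨ℕ, 0, (g.map fun r => ⟨r.1, r.2.map Cfg.sym⟩).toFinset⟩

end Pool.Agent.Lib.CX
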